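import Pool.Agent.W617.LG.StmII
/-! LG-DIV (MP_7dd29b_gt): the field `PP • e_0` is divergence free. -/
set_option autoImplicit false
set_option maxSynthPendingDepth 4
open Topology Filter Set
open scoped ContDiff InnerProductSpace

namespace Pool.Agent.W465.LG
open Pool.Agent.W617.LG

lemma onb' {q : ℕ} {C : TF q} {x : E q} {e : Fin (q + 1) → E q} (h : AF C x e) :
    ∃ b : OrthonormalBasis (Fin (q + 2)) ℝ (E q), b 0 = ‖x‖⁻¹ • x ∧ ∀ i : Fin (q + 1), b i.succ = e i := by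
  have hx0 : ‖x‖ ≠ 0 := norm_ne_zero_iff.2 h.x0
  have ho : Orthonormal ℝ (Fin.cons (‖x‖⁻¹ • x) e : Fin (q + 2) → E q) := by
    rw [orthonormal_iff_ite]
    intro i j
    refine Fin.cases ?_ (fun i => ?_) i
    · refine Fin.cases ?_ (fun j => ?_) j
      · simp only [Fin.cons_zero, inner_smul_left, inner_smul_right, real_inner_self_eq_norm_sq, if_true]
        simp only [conj_trivial]
        field_simp
      · simp only [Fin.cons_zero, Fin.cons_succ, inner_smul_left, h.rad j, mul_zero]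
        rw [if_neg (Fin.succ_ne_zero j).symm]
    · refine Fin.cases ?_ (fun j => ?_) j
      · rw [real_inner_comm]
        simp only [Fin.cons_zero, Fin.cons_succ, inner_smul_left, h.rad i, mul_zero]
        rw [if_neg (Fin.succ_ne_zero i)]
      · simp [h.on i j]
  have hc : Fintype.card (Fin (q + 2)) = Module.finrank ℝ (E q) := by simp
  let B := basisOfOrthonormalOfCardEqFinrank ho hc
  have hB : (B : Fin (q + 2) → E q) = Fin.cons (‖x‖⁻¹ • x) e := coe_basisOfOrthonormalOfCardEqFinrank ho hc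
  have hoB : Orthonormal ℝ B := by rw [hB]; exact ho
  refine ⟨B.toOrthonormalBasis hoB, ?_, fun i => ?_⟩
  · rw [Module.Basis.coe_toOrthonormalBasis, hB]; simp
  · rw [Module.Basis.coe_toOrthonormalBasis, hB]; simp

theorem lg_div (hS : S_STR) : S_DIV := by
  intro q C τ hL x₀ e he hA hl
  obtain ⟨-, hs2, hs3⟩ := hS q C τ hL x₀ e he hA hl
  have hAx : AF C x₀ (e x₀) := hA.self_of_nhds
  obtain ⟨b, hb0, hb⟩ := onb' hAx
  have hed : HasFDerivAt e (fderiv ℝ e x₀) x₀ := (he.differentiableAt (by simp)).hasFDerivAt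
  set Le := fderiv ℝ e x₀ with hLe
  have hei : ∀ i, HasFDerivAt (fun x => e x i) ((ContinuousLinearMap.proj i).comp Le) x₀ :=
    fun i => (hasFDerivAt_pi'.1 hed) i
  have hei' : ∀ i, ContDiffAt ℝ ∞ (fun x => e x i) x₀ := fun i => contDiffAt_pi.1 he i
  have hCs := hL.smooth x₀ hAx.x0
  have hlam : ∀ l : Fin q, ContDiffAt ℝ ∞ (fun x => lam C x (e x l.succ)) x₀ := fun l =>
    ((hCs.clm_apply (hei' l.succ)).clm_apply (hei' l.succ)).inner ℝ (hei' l.succ)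
  have hlamd : ∀ l : Fin q, HasFDerivAt (fun x => lam C x (e x l.succ))
      (fderiv ℝ (fun x => lam C x (e x l.succ)) x₀) x₀ := fun l =>
    ((hlam l).differentiableAt (by simp)).hasFDerivAt
  have hP : HasFDerivAt (fun x => PP C x (e x))
      (∑ l : Fin q, (∏ j ∈ Finset.univ.erase l, lam C x₀ (e x₀ j.succ)) •
        fderiv ℝ (fun x => lam C x (e x l.succ)) x₀) x₀ := by
    have := HasFDerivAt.finsetProd (u := Finset.univ) (fun l _ => hlamd l)
    simpa [PP] using this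
  have hF : fderiv ℝ (fun x => PP C x (e x) • e x 0) x₀ = _ := (hP.smul (hei 0)).fderiv
  rw [hF, LinearMap.trace_eq_sum_inner _ b, Fin.sum_univ_succ, Fin.sum_univ_succ]
  -- derivative of the orthogonality relations
  have hrad : ∀ v, ⟪x₀, Le v 0⟫_ℝ + ⟪v, e x₀ 0⟫_ℝ = 0 := by
    intro v
    have h1 : HasFDerivAt (fun x : E q => ⟪x, e x 0⟫_ℝ) _ x₀ := (hasFDerivAt_id x₀).inner ℝ (hei 0)
    have h2 : HasFDerivAt (fun x : E q => ⟪x, e x 0⟫_ℝ) (0 : E q →L[ℝ] ℝ) x₀ := by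
      refine (hasFDerivAt_const (0 : ℝ) x₀).congr_of_eventuallyEq ?_
      filter_upwards [hA] with x hx
      exact hx.rad 0
    have h3 := congrArg (fun T : E q →L[ℝ] ℝ => T v) (h1.unique h2)
    simpa using h3
  have hnn : ∀ v, ⟪e x₀ 0, Le v 0⟫_ℝ = 0 := by
    intro v
    have h1 : HasFDerivAt (fun x : E q => ⟪e x 0, e x 0⟫_ℝ) _ x₀ := (hei 0).inner ℝ (hei 0)
    have h2 : HasFDerivAt (fun x : E q => ⟪e x 0, e x 0⟫_ℝ) (0 : E q →L[ℝ] ℝ) x₀ := by
      refine (hasFDerivAt_const (1 : ℝ) x₀).congr_of_eventuallyEq ?_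
      filter_upwards [hA] with x hx
      simpa using hx.on 0 0
    have h3 := congrArg (fun T : E q →L[ℝ] ℝ => T v) (h1.unique h2)
    have h4 : ⟪e x₀ 0, Le v 0⟫_ℝ + ⟪Le v 0, e x₀ 0⟫_ℝ = 0 := by simpa using h3
    rw [real_inner_comm (e x₀ 0) (Le v 0)] at h4
    linarith
  have happ : ∀ v : E q, (((PP C x₀ (e x₀)) • ((ContinuousLinearMap.proj 0).comp Le) +
      (∑ l : Fin q, (∏ j ∈ Finset.univ.erase l, lam C x₀ (e x₀ j.succ)) •
        fderiv ℝ (fun x => lam C x (e x l.succ)) x₀).smulRight (e x₀ 0) : E q →L[ℝ] E q).toLinearMap v)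
      = PP C x₀ (e x₀) • Le v 0 + (∑ l : Fin q, (∏ j ∈ Finset.univ.erase l, lam C x₀ (e x₀ j.succ)) *
        fderiv ℝ (fun x => lam C x (e x l.succ)) x₀ v) • e x₀ 0 := by
    intro v
    simp
  simp only [happ, hb0, hb, inner_add_right, inner_smul_right]
  -- first term
  have t0 : ⟪‖x₀‖⁻¹ • x₀, Le (‖x₀‖⁻¹ • x₀) 0⟫_ℝ = 0 := by
    have := hrad (‖x₀‖⁻¹ • x₀)
    rw [inner_smul_left, hAx.rad 0] at this
    rw [inner_smul_left]
    have h5 : ⟪x₀, Le (‖x₀‖⁻¹ • x₀) 0⟫_ℝ = 0 := by linarith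
    rw [h5, mul_zero]
  have t0' : ⟪‖x₀‖⁻¹ • x₀, e x₀ 0⟫_ℝ = 0 := by rw [inner_smul_left, hAx.rad 0, mul_zero]
  have t1 : ⟪e x₀ 0, e x₀ 0⟫_ℝ = 1 := by simpa using hAx.on 0 0
  have t2 : ∀ l : Fin q, ⟪e x₀ l.succ, e x₀ 0⟫_ℝ = 0 := by
    intro l
    rw [hAx.on l.succ 0, if_neg (Fin.succ_ne_zero l)]
  have t3 : ∀ l : Fin q, ⟪e x₀ l.succ, Le (e x₀ l.succ) 0⟫_ℝ
      = -(lam C x₀ (e x₀ l.succ) * bb C x₀ (e x₀) l) := by
    intro l
    rw [real_inner_comm]
    exact hs2 l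
  rw [t0, t0', hnn, t1]
  simp only [t2, t3, hs3, mul_zero, zero_add, add_zero, mul_one]
  rw [← Finset.sum_add_distrib]
  apply Finset.sum_eq_zero
  intro l _
  have hPP : PP C x₀ (e x₀) = (∏ j ∈ Finset.univ.erase l, lam C x₀ (e x₀ j.succ)) * lam C x₀ (e x₀ l.succ) := by
    rw [PP, Finset.prod_erase_mul _ _ (Finset.mem_univ l)]
  rw [hPP]; ring

end Pool.Agent.W465.LG
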